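import Pool.Agent.R65.SID.Final

/-! Sidorenko's inequality `R(3, G) ≤ k + m` holds for every Turán graph.

Proof idea. Let `H` be a triangle-free graph on `n = k + m(k, w)` vertices and `I` a largest
independent set, `|I| = N`. All degrees are at most `N`. If `N ≥ k` we are done. Otherwise
`N = k - j`, and `n < (N + 1)(N + 2) / 2` because `R(3, s) ≤ s (s + 1) / 2`. Let `p` be the size of
the largest part of `T(k, w)` and `s = p - j`. Averaging over all `s`-subsets `S` of `I`, a
convexity estimate shows that for some `S` at least `j` vertices outside `I` have all their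
neighbours in `I` inside `S`. The set `S` and `j` such vertices form the first part, the set
`I \ S` is divided among the other parts. -/

namespace Pool.Agent.Results.MP_1de1cd_co.AllTuranGraphs

open SimpleGraph

/-- Every graph `H` on `n` vertices contains a triangle, or its complement contains a (not
necessarily induced) copy of `G`. -/
def Arrows3 {k : ℕ} (G : SimpleGraph (Fin k)) (n : ℕ) : Prop :=
  ∀ H : SimpleGraph (Fin n), ¬ H.CliqueFree 3 ∨ G.IsContained Hᶜ

/-- The Ramsey number `R(3, G)`: the least `n` such that every graph on `n` vertices contains a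
triangle or has a complement containing a copy of `G`. -/
noncomputable def R3 {k : ℕ} (G : SimpleGraph (Fin k)) : ℕ := sInf {n | Arrows3 G n}

/-- For all `2 ≤ w ≤ k` the Ramsey number `R(3, T(k, w))` exists and is at most `k + m(k, w)`,
where `m(k, w)` is the number of edges of the Turán graph `T(k, w)`. -/
theorem result (k w : ℕ) (hw : 2 ≤ w) (hwk : w ≤ k) :
    Arrows3 (turanGraph k w) (R3 (turanGraph k w)) ∧
      R3 (turanGraph k w) ≤ k + (turanGraph k w).edgeFinset.card := by
  have h : Arrows3 (turanGraph k w) (k + (turanGraph k w).edgeFinset.card) := by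
    intro H
    by_cases hH : H.CliqueFree 3
    · exact Or.inr (Pool.Agent.R65.SID.turan_compl H hH k w hw hwk (Fintype.card_fin _))
    · exact Or.inl hH
  exact ⟨Nat.sInf_mem (s := {n | Arrows3 (turanGraph k w) n}) ⟨_, h⟩, Nat.sInf_le h⟩

end Pool.Agent.Results.MP_1de1cd_co.AllTuranGraphs
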